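import Pool.Agent.TH275.AC.Mix

/-!
# The strengthened Aaronson-Ambainis inequality for adaptive algorithms with bounded gates

A program (`Prog`) runs gates adaptively: a gate is a function (or again a program) with values in
`[-1,1]`; a coin with this mean is tossed, and the program continues with one of two programs whose
difference does not depend on the coordinates read by the gate (for instance because they are not
read again).  Moreover a balanced gate may be fed into a coordinate of a program which does not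
depend on the coordinates read by the gate.  `mean p x` is the expected output on the input `x`,
`cost p` the expected sum, along the path of the program, of the numbers `∑ j, ‖D_j g‖₂` of its
gates `g` (a gate fed into a coordinate multiplies the cost).

1. If `P` is a polynomial of degree at most `d` in `r` arbitrary linear forms which is bounded by
   `1` on the solid cube `[-1,1]^n`, then `∑ j, ‖D_j P‖_∞ ≤ 2 r d²`.
2. For every program `p` and every real function `h`, with `f = mean p`,
   `|Cov (f, h)| ≤ ∑ j, weight p j ‖D_j h‖₂ ≤ cost p · max_j ‖D_j h‖₂`.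
3. For a program with `T` rounds, with gates satisfying `∑ j, ‖D_j g‖₂ ≤ K`,
   `Var f ≤ K T max_j ‖D_j f‖₂`; thus `K = 2 r d²` for gates as in 1.
4. If `f` is approximated in `L²`, up to half of its variance, by a linear combination
   `∑ s, c s · mean (p s)` of programs, then `Var f ≤ 4 (∑ s, |c s| cost (p s)) max_j ‖D_j f‖₂`.
5. If `f` has degree at most `D` and is approximated in `L²`, up to half of its variance, by
   `∑ s, J s · mean (p s)`, where `J s` depends on at most `k` coordinates (which may be read by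
   `p s` as well) and `p s` has `T` rounds, with gates satisfying `∑ j, ‖D_j g‖_∞ ≤ K`, then
   `Var f ≤ (12 k D √(Λ ‖f‖_∞) + 4 K T Λ) max_j ‖D_j f‖₂` with `Λ = ∑ s, ‖J s‖₁`.
-/

set_option autoImplicit false

namespace Pool.Agent.Results.MP_f992e4_an.GateAlgorithms

open Pool.Agent.TH275.AC Pool.Agent.H746R2.AA

theorem result {ι : Type*} [Fintype ι] [DecidableEq ι] :
    -- 1. polynomials of `r` linear forms, bounded on the solid cube
    (∀ (r d : ℕ) (a : Fin r → ι → ℝ) (P : MvPolynomial (Fin r) ℝ), P.totalDegree ≤ d →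
      (∀ y : ι → ℝ, (∀ j, |y j| ≤ 1) →
        |MvPolynomial.eval (fun i => ∑ j, a i j * y j) P| ≤ 1) →
      ∀ f : (ι → ℤˣ) → ℝ,
        (∀ x, f x = MvPolynomial.eval (fun i => ∑ j, a i j * ((x j : ℤ) : ℝ)) P) →
        ∑ j, ⨆ x : ι → ℤˣ, |deriv f j x| ≤ 2 * r * (d : ℝ) ^ 2 ∧
          ∑ j, dnorm f j ≤ 2 * r * (d : ℝ) ^ 2 ∧
          variance f ≤ 2 * r * (d : ℝ) ^ 2 * maxDeriv f) ∧
    -- 2. programs
    (∀ p : Prog ι, p.Valid → ∀ h : (ι → ℤˣ) → ℝ,
      |E (fun x => p.mean x * h x) - E p.mean * E h| ≤ ∑ j, p.weight j * dnorm h j ∧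
        ∑ j, p.weight j * dnorm h j ≤ p.cost * maxDeriv h) ∧
    -- 3. programs with `T` rounds
    (∀ (K : ℝ) (T : ℕ) (p : Prog ι), 0 ≤ K → Rounds K T p → p.Valid →
      p.cost ≤ K * T ∧ variance p.mean ≤ K * T * maxDeriv p.mean) ∧
    -- 4. functions approximated by linear combinations of programs
    (∀ (m : ℕ) (c : Fin m → ℝ) (p : Fin m → Prog ι) (f : (ι → ℤˣ) → ℝ), (∀ s, (p s).Valid) →
      E (fun x => (f x - ∑ s, c s * (p s).mean x) ^ 2) ≤ variance f / 2 →
      variance f ≤ 4 * (∑ s, |c s| * (p s).cost) * maxDeriv f) ∧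
    -- 5. functions approximated by mixtures of juntas times programs with `T` rounds
    (∀ (m D k T : ℕ) (K : ℝ) (C : Fin m → Finset ι) (J : Fin m → (ι → ℤˣ) → ℝ)
      (p : Fin m → Prog ι) (f : (ι → ℤˣ) → ℝ), 0 ≤ K →
      (∀ S : Finset ι, D < S.card → ∑ x : ι → ℤˣ, f x * ∏ i ∈ S, ((x i : ℤ) : ℝ) = 0) →
      (∀ s, (C s).card ≤ k) → (∀ s x y, (∀ i ∈ C s, x i = y i) → J s x = J s y) →
      (∀ s, (p s).Valid) → (∀ s, RoundsSup K T (p s)) →
      E (fun x => (f x - ∑ s, J s x * (p s).mean x) ^ 2) ≤ variance f / 2 →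
      variance f ≤ (12 * k * D * Real.sqrt ((∑ s, E fun x => |J s x|) * ⨆ x : ι → ℤˣ, |f x|)
        + 4 * (K * T) * ∑ s, E fun x => |J s x|) * maxDeriv f) := by
  have hvar : ∀ p : Prog ι, p.Valid → variance p.mean ≤ p.cost * maxDeriv p.mean := by
    intro p hp
    rw [variance_eq]
    exact (le_abs_self _).trans (p.cov_max hp p.mean)
  refine ⟨?_, ?_, ?_, ?_, ?_⟩
  · intro r d a P hP hb f hf
    have hfe : f = fun x => MvPolynomial.eval (fun i => ∑ j, a i j * ((x j : ℤ) : ℝ)) P :=
      funext hf
    have h1 := low_rank a P hP hb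
    rw [← hfe] at h1
    have h2 : ∑ j, dnorm f j ≤ 2 * r * (d : ℝ) ^ 2 :=
      (Finset.sum_le_sum fun j _ => dnorm_le_sup f j).trans h1
    refine ⟨h1, h2, ?_⟩
    have h3 : (Prog.fn f).Valid := by
      intro x
      rw [hf]
      refine hb _ fun j => ?_
      rcases Int.units_eq_one_or (x j) with h | h <;> rw [h] <;> simp
    exact (hvar (Prog.fn f) h3).trans (mul_le_mul_of_nonneg_right h2 (maxDeriv_nonneg f))
  · intro p hp h
    refine ⟨p.cov hp h, ?_⟩
    calc ∑ l, p.weight l * dnorm h l ≤ ∑ l, p.weight l * maxDeriv h :=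
          Finset.sum_le_sum fun l _ =>
            mul_le_mul_of_nonneg_left (dnorm_le_max h l) (Prog.weight_nonneg p hp l)
      _ = (∑ l, p.weight l) * maxDeriv h := by rw [Finset.sum_mul]
      _ ≤ p.cost * maxDeriv h :=
          mul_le_mul_of_nonneg_right (Prog.weight_sum p hp) (maxDeriv_nonneg h)
  · intro K T p hK hR hp
    have h1 := cost_rounds hK hR hp
    exact ⟨h1, (hvar p hp).trans (mul_le_mul_of_nonneg_right h1 (maxDeriv_nonneg _))⟩
  · intro m c p f hp hclose
    rw [variance_eq] at hclose ⊢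
    exact approx f c p hp hclose
  · intro m D k T K C J p f hK hdeg hC hJ hp hR hclose
    rw [variance_eq] at hclose ⊢
    refine junta_mixture D f (fun S hS => ?_) (⨆ x : ι → ℤˣ, |f x|) ?_ k C hC J hJ K hK T p hp hR
      hclose _ (fun l => dnorm_le_max f l) (maxDeriv_nonneg f)
    · unfold Pool.Agent.H722R2.AA.fc Pool.Agent.H722R2.AA.sg
      rw [hdeg S hS, zero_div]
    · intro x
      exact le_ciSup (f := fun x : ι → ℤˣ => |f x|) (Set.finite_range _).bddAbove x

end Pool.Agent.Results.MP_f992e4_an.GateAlgorithms
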