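import Pool.Agent.TH275.AL.Mixture

/-!
# The strengthened Aaronson-Ambainis inequality for polynomials of linear forms and their mixtures

The function `Q s` is, in each of `r` blocks of coordinates, a polynomial of degree at most `d` of
a linear form `∑ a s j * x j` with arbitrary real weights (for example `Q s = P(ℓ_1(x), …, ℓ_r(x))`,
where the `ℓ_b` are linear forms with disjoint supports and `P` has degree at most `d` in each
variable), and `|Q s| ≤ 1`.  Then `∑ j, ‖D_j (Q s)‖₂ ≤ 287 r d^(5/2)`.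

If `f` has degree at most `D` and is approximated in `L²`, up to half of its variance, by
`∑ s, J s * Q s`, where `J s` depends on at most `k` coordinates and `Λ = ∑ s, ‖J s‖₁`, then
`Var f ≤ (12 k D √(Λ ‖f‖_∞) + 1148 r d^(5/2) Λ) · max_j ‖D_j f‖₂`.

Examples: `f = Q` (`k = 0`, `Λ = ‖f‖_∞` after scaling); sums of bounded polynomials of different
linear forms; decision trees of depth `k` with such a polynomial, of a linear form depending on the
leaf, at every leaf (`Λ = 1`).

Idea: if the largest coefficient of a group of small coefficients is below `1/(4 d²)` times their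
sum, then the values of the form are so dense that the polynomial is bounded on an interval and
Markov's inequality applies.  The remaining coefficients are nearly lacunary: every window
`[c, 16 c)` contains at most `64 d²` of them; a level of the polynomial has at most `d` points, and
the form is near a given point with a probability which decays geometrically with the number of
larger coefficients.
-/

set_option autoImplicit false

namespace Pool.Agent.Results.MP_f992e4_an.LinearFormMixture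

open Polynomial Pool.Agent.H746R2.AA

theorem result {ι κ σ : Type*} [Fintype ι] [DecidableEq ι] [Fintype κ] [DecidableEq κ] [Fintype σ]
    (D k d : ℕ) (f : (ι → ℤˣ) → ℝ)
    (hdeg : ∀ S : Finset ι, D < S.card → ∑ x : ι → ℤˣ, f x * ∏ i ∈ S, ((x i : ℤ) : ℝ) = 0)
    -- the juntas
    (C : σ → Finset ι) (hC : ∀ s, (C s).card ≤ k)
    (J : σ → (ι → ℤˣ) → ℝ) (hJ : ∀ s x y, (∀ i ∈ C s, x i = y i) → J s x = J s y)
    -- the polynomials of linear forms
    (Q : σ → (ι → ℤˣ) → ℝ) (hQ : ∀ s x, |Q s x| ≤ 1) (blk : σ → ι → κ) (a : σ → ι → ℝ)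
    (hpol : ∀ (s : σ) (b : κ) (z : ι → ℤˣ), ∃ p : ℝ[X], p.natDegree ≤ d ∧ ∀ y : ι → ℤˣ,
      (∀ j, blk s j ≠ b → y j = z j) →
      Q s y = p.eval (∑ j ∈ Finset.univ.filter (fun j => blk s j = b), a s j * ((y j : ℤ) : ℝ)))
    -- `f` is approximated by the mixture up to half of its variance
    (hclose : (∑ x : ι → ℤˣ, (f x - ∑ s, J s x * Q s x) ^ 2) / (2 : ℝ) ^ Fintype.card ι ≤
      ((∑ x : ι → ℤˣ, f x ^ 2) / (2 : ℝ) ^ Fintype.card ι
        - ((∑ x : ι → ℤˣ, f x) / (2 : ℝ) ^ Fintype.card ι) ^ 2) / 2) :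
    -- the sum of the `L²` norms of the derivatives of `Q s`
    (∀ s, ∑ j : ι, Real.sqrt ((∑ x : ι → ℤˣ,
        ((Q s (Function.update x j 1) - Q s (Function.update x j (-1))) / 2) ^ 2)
          / (2 : ℝ) ^ Fintype.card ι) ≤ 287 * Fintype.card κ * ((d : ℝ) ^ 2 * Real.sqrt d)) ∧
    -- the strengthened Aaronson-Ambainis inequality
    (∑ x : ι → ℤˣ, f x ^ 2) / (2 : ℝ) ^ Fintype.card ι
        - ((∑ x : ι → ℤˣ, f x) / (2 : ℝ) ^ Fintype.card ι) ^ 2 ≤
      (12 * k * D * Real.sqrt
          ((∑ s, (∑ x : ι → ℤˣ, |J s x|) / (2 : ℝ) ^ Fintype.card ι) * ⨆ x : ι → ℤˣ, |f x|)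
        + 1148 * Fintype.card κ * ((d : ℝ) ^ 2 * Real.sqrt d)
          * ∑ s, (∑ x : ι → ℤˣ, |J s x|) / (2 : ℝ) ^ Fintype.card ι) *
      ⨆ j : ι, Real.sqrt ((∑ x : ι → ℤˣ,
          ((f (Function.update x j 1) - f (Function.update x j (-1))) / 2) ^ 2)
            / (2 : ℝ) ^ Fintype.card ι) := by
  classical
  have hfc : ∀ S : Finset ι, D < S.card → Pool.Agent.H722R2.AA.fc f S = 0 := by
    intro S hS
    unfold Pool.Agent.H722R2.AA.fc Pool.Agent.H722R2.AA.sg
    rw [hdeg S hS, zero_div]
  have hvar : (∑ x : ι → ℤˣ, f x ^ 2) / (2 : ℝ) ^ Fintype.card ι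
        - ((∑ x : ι → ℤˣ, f x) / (2 : ℝ) ^ Fintype.card ι) ^ 2 = Cov f f := by
    unfold Cov Ex
    simp_rw [← sq]
  refine ⟨fun s => ?_, ?_⟩
  · have h := Pool.Agent.TH275.AL.sum_sqrt_Inf_le (blk s) (a s) d (Q s) (hpol s) (hQ s)
    rw [mul_one] at h
    exact h
  rw [hvar] at hclose ⊢
  refine Pool.Agent.TH275.AL.strong_mixture D f hfc (⨆ x : ι → ℤˣ, |f x|) ?_ k C hC J Q hJ hQ
    blk a d hpol ?_ _ ?_ ?_
  · intro x
    exact le_ciSup (f := fun x : ι → ℤˣ => |f x|) (Set.finite_range _).bddAbove x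
  · exact hclose
  · intro l
    exact le_ciSup (f := fun j : ι => Real.sqrt ((∑ x : ι → ℤˣ,
          ((f (Function.update x j 1) - f (Function.update x j (-1))) / 2) ^ 2)
            / (2 : ℝ) ^ Fintype.card ι)) (Set.finite_range _).bddAbove l
  · exact Real.iSup_nonneg fun j => Real.sqrt_nonneg _

end Pool.Agent.Results.MP_f992e4_an.LinearFormMixture
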