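import Pool.Agent.TH788.TW.Main

/-!
# The strengthened Aaronson-Ambainis inequality for functions with twin coordinates

Two coordinates are twins of `Q` if exchanging them does not change `Q`.  Let `Q s` be polynomials of
degree at most `d` on the cube with `|Q s| ≤ 1`, whose coordinates, apart from `K` of them, are
divided into arbitrarily many blocks of at least `a + k` pairwise twins, `a ≥ d` (the blocks may
depend on `s`).  If `f` has degree at most `D` and is approximated in `L²`, up to half of its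
variance, by `∑ s, J s * Q s`, where `J s` depends on at most `k` coordinates and
`Λ = ∑ s, ‖J s‖₁`, then

`Var f ≤ (12 k D √(Λ ‖f‖_∞) + 4 (9 d exp(600 d² / a) + K) Λ) · max_j ‖D_j f‖₂`.

For `k = 0` and one summand this is `Var f ≤ 4 (9 d exp(600 d² / a) + K) ‖f‖_∞ max_j ‖D_j f‖₂`
for a function `f` of degree `d` with twins: a polynomial factor, which does not depend on the
number of blocks, if `a ≥ d²` (or only `a ≥ c d² / log d`).

Idea: colour every block equitably with `m` colours.  The sets of `m` coordinates which meet every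
colour once give a multilinear form in the block sums; its coefficients are the sums of the Fourier
coefficients over all such sets with given blocks.  It is a Taylor coefficient of a bounded
polynomial of degree `d`, so bounded by `(e d / m)^m`, and Khinchine's inequality bounds the `L²`
norms of its slices; passing from the sums to the single Fourier coefficients gains `a^(1/2)` for
every coordinate but one.
-/

set_option autoImplicit false

namespace Pool.Agent.Results.MP_f992e4_an.TwinCoordinates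

open Pool.Agent.H746R2.AA

theorem result {ι κ σ : Type*} [Fintype ι] [DecidableEq ι] [Fintype κ] [DecidableEq κ] [Fintype σ]
    (D k d K a : ℕ) (ha1 : 1 ≤ a) (had : d ≤ a) (f : (ι → ℤˣ) → ℝ)
    (hdeg : ∀ S : Finset ι, D < S.card → ∑ x : ι → ℤˣ, f x * ∏ i ∈ S, ((x i : ℤ) : ℝ) = 0)
    -- the juntas
    (C : σ → Finset ι) (hC : ∀ s, (C s).card ≤ k)
    (J : σ → (ι → ℤˣ) → ℝ) (hJ : ∀ s x y, (∀ i ∈ C s, x i = y i) → J s x = J s y)
    -- the bounded polynomials
    (Q : σ → (ι → ℤˣ) → ℝ) (hQ : ∀ s x, |Q s x| ≤ 1)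
    (hQdeg : ∀ s, ∀ S : Finset ι, d < S.card → ∑ x : ι → ℤˣ, Q s x * ∏ i ∈ S, ((x i : ℤ) : ℝ) = 0)
    -- the blocks of twins: `L s` is their union
    (L : σ → Finset ι) (hK : ∀ s, (Finset.univ \ L s).card ≤ K) (blk : σ → ι → κ)
    (htw : ∀ s, ∀ i ∈ L s, ∀ j ∈ L s, blk s i = blk s j →
      ∀ x : ι → ℤˣ, Q s (fun l => x (Equiv.swap i j l)) = Q s x)
    (hsize : ∀ s, ∀ i ∈ L s, a + k ≤ ((L s).filter (fun j => blk s j = blk s i)).card)
    -- `f` is approximated by the mixture up to half of its variance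
    (hclose : (∑ x : ι → ℤˣ, (f x - ∑ s, J s x * Q s x) ^ 2) / (2 : ℝ) ^ Fintype.card ι ≤
      ((∑ x : ι → ℤˣ, f x ^ 2) / (2 : ℝ) ^ Fintype.card ι
        - ((∑ x : ι → ℤˣ, f x) / (2 : ℝ) ^ Fintype.card ι) ^ 2) / 2) :
    -- the strengthened Aaronson-Ambainis inequality
    (∑ x : ι → ℤˣ, f x ^ 2) / (2 : ℝ) ^ Fintype.card ι
        - ((∑ x : ι → ℤˣ, f x) / (2 : ℝ) ^ Fintype.card ι) ^ 2 ≤
      (12 * k * D * Real.sqrt
          ((∑ s, (∑ x : ι → ℤˣ, |J s x|) / (2 : ℝ) ^ Fintype.card ι) * ⨆ x : ι → ℤˣ, |f x|)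
        + 4 * (9 * d * Real.exp (600 * d ^ 2 / a) + K)
          * ∑ s, (∑ x : ι → ℤˣ, |J s x|) / (2 : ℝ) ^ Fintype.card ι) *
      ⨆ j : ι, Real.sqrt ((∑ x : ι → ℤˣ,
          ((f (Function.update x j 1) - f (Function.update x j (-1))) / 2) ^ 2)
            / (2 : ℝ) ^ Fintype.card ι) := by
  classical
  have hfc : ∀ S : Finset ι, D < S.card → Pool.Agent.H722R2.AA.fc f S = 0 := by
    intro S hS
    unfold Pool.Agent.H722R2.AA.fc Pool.Agent.H722R2.AA.sg
    rw [hdeg S hS, zero_div]
  have hQfc : ∀ s, ∀ S : Finset ι, d < S.card → Pool.Agent.H722R2.AA.fc (Q s) S = 0 := by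
    intro s S hS
    unfold Pool.Agent.H722R2.AA.fc Pool.Agent.H722R2.AA.sg
    rw [hQdeg s S hS, zero_div]
  have hvar : (∑ x : ι → ℤˣ, f x ^ 2) / (2 : ℝ) ^ Fintype.card ι
        - ((∑ x : ι → ℤˣ, f x) / (2 : ℝ) ^ Fintype.card ι) ^ 2 = Cov f f := by
    unfold Cov Ex
    simp_rw [← sq]
  have hM : ∀ (h : (ι → ℤˣ) → ℝ) (l : ι), Real.sqrt (Inf h l) ≤ ⨆ j : ι, Real.sqrt ((∑ x : ι → ℤˣ,
          ((h (Function.update x j 1) - h (Function.update x j (-1))) / 2) ^ 2)
            / (2 : ℝ) ^ Fintype.card ι) := fun h l =>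
    le_ciSup (f := fun j : ι => Real.sqrt ((∑ x : ι → ℤˣ,
          ((h (Function.update x j 1) - h (Function.update x j (-1))) / 2) ^ 2)
            / (2 : ℝ) ^ Fintype.card ι)) (Set.finite_range _).bddAbove l
  rw [hvar] at hclose ⊢
  refine Pool.Agent.TH788.TW.strong_twins D f hfc (⨆ x : ι → ℤˣ, |f x|) ?_ k C hC J Q hJ hQ
    d K a ha1 had hQfc L hK blk htw hsize ?_ _ (hM f) ?_
  · intro x
    exact le_ciSup (f := fun x : ι → ℤˣ => |f x|) (Set.finite_range _).bddAbove x
  · exact hclose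
  · exact Real.iSup_nonneg fun j => Real.sqrt_nonneg _

end Pool.Agent.Results.MP_f992e4_an.TwinCoordinates
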